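import Pool.Agent.Y53.FP.Final

/-!
MP_7b119f_an, Q1 and Q2 in the negated form.  There is a countable, totally bounded metric space
`M`, every point of which is isolated, such that the Lipschitz free `p`-space over `M` fails the
approximation property for all `0 < p ≤ 1` (in particular for `p = 1`).

`M` is not complete (for complete spaces with isolated points the approximation property holds, see
`CompleteDiscreteAP`).  Let `C` be a compact subset of a Banach space without the approximation
property as in `Pool.Agent.Y53.FP.main_aux`, and `M = ⋃ F_n × {1 / (n + 1)}`, where `F_n` is a finite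
`1 / (n + 1)`-net of `C`.
-/

set_option autoImplicit false

open Set Filter Topology
open Pool.Agent.H548R3.PFree Pool.Agent.H548R3.NoAP Pool.Agent.Y53.FP

namespace Pool.Agent.Results.MP_7b119f_an.DiscreteFails

/-- The union of the finite sets `F n × {1 / (n + 1)}`. -/
def Lay (F : ℕ → Set E) : Set (E × ℝ) := {q | ∃ n : ℕ, q.1 ∈ F n ∧ q.2 = 1 / ((n : ℝ) + 1)}

lemma lay_countable {F : ℕ → Set E} (hF : ∀ n, (F n).Finite) : (Lay F).Countable := by
  have h1 : Lay F ⊆ ⋃ n : ℕ, F n ×ˢ {(1 / ((n : ℝ) + 1) : ℝ)} := by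
    rintro q ⟨n, h1, h2⟩
    exact mem_iUnion.2 ⟨n, mem_prod.2 ⟨h1, h2⟩⟩
  exact (countable_iUnion fun n => ((hF n).prod (finite_singleton _)).countable).mono h1

lemma lay_isolated {F : ℕ → Set E} (hF : ∀ n, (F n).Finite) (q : Lay F) :
    ∃ r : ℝ, 0 < r ∧ ∀ q' : Lay F, dist q' q < r → q' = q := by
  obtain ⟨q, n, hq1, hq2⟩ := q
  have hr1 : (0 : ℝ) < 1 / ((n : ℝ) + 1) - 1 / ((n : ℝ) + 2) := by
    have : (1 : ℝ) / ((n : ℝ) + 2) < 1 / ((n : ℝ) + 1) :=
      one_div_lt_one_div_of_lt (by positivity) (by linarith)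
    linarith
  set A : Set (E × ℝ) := ⋃ m ∈ Finset.range (n + 1), F m ×ˢ {(1 / ((m : ℝ) + 1) : ℝ)} with hA
  have hAf : A.Finite := by
    refine Set.Finite.biUnion (Finset.finite_toSet _) fun m _ => ?_
    exact (hF m).prod (finite_singleton _)
  have h2 : (A \ {q})ᶜ ∈ 𝓝 q := by
    refine (hAf.subset sdiff_subset).isClosed.isOpen_compl.mem_nhds ?_
    simp
  obtain ⟨r2, hr2, hball⟩ := Metric.mem_nhds_iff.1 h2
  refine ⟨min (1 / ((n : ℝ) + 1) - 1 / ((n : ℝ) + 2)) r2, lt_min hr1 hr2, ?_⟩
  rintro ⟨q', m, hm1, hm2⟩ hd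
  rw [Subtype.dist_eq] at hd
  have hd1 : dist q' q < 1 / ((n : ℝ) + 1) - 1 / ((n : ℝ) + 2) := hd.trans_le (min_le_left _ _)
  have hd2 : dist q' q < r2 := hd.trans_le (min_le_right _ _)
  have h3 : q' ∈ (A \ {q})ᶜ := hball hd2
  have h4 : q' ∈ A := by
    have h5 : |q'.2 - q.2| ≤ dist q' q := by
      rw [← Real.dist_eq]
      exact (le_max_right _ _ : _ ≤ max (dist q'.1 q.1) (dist q'.2 q.2))
    have h6 : 1 / ((n : ℝ) + 2) < 1 / ((m : ℝ) + 1) := by
      have h7 := (abs_le.1 h5).1
      have hq2' : q.2 = 1 / ((n : ℝ) + 1) := hq2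
      have hm2' : q'.2 = 1 / ((m : ℝ) + 1) := hm2
      rw [hq2', hm2'] at h7
      linarith
    have h8 : (m : ℝ) + 1 < n + 2 := lt_of_one_div_lt_one_div (by positivity) h6
    have h9 : m < n + 1 := by
      have : (m : ℝ) < ((n + 1 : ℕ) : ℝ) := by push_cast; linarith
      exact_mod_cast this
    rw [hA]
    simp only [mem_iUnion]
    exact ⟨m, Finset.mem_range.2 h9, mem_prod.2 ⟨hm1, hm2⟩⟩
  refine Subtype.ext ?_
  by_contra hne
  exact h3 ⟨h4, hne⟩

/-- There is a countable totally bounded metric space `M` in which every point is isolated, such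
that for every `0 < p ≤ 1` the Lipschitz free `p`-space over `M` (it exists) fails the
approximation property. -/
theorem result : ∃ (M : Type) (_ : MetricSpace M), Countable M ∧ DiscreteTopology M ∧
    TotallyBounded (univ : Set M) ∧ ∀ (o : M) (p : ℝ), 0 < p → p ≤ 1 → FreeFailsAP p M o := by
  classical
  obtain ⟨C, hCc, -, hC⟩ := main_aux ap_E
  have hnet : ∀ n : ℕ, ∃ F : Set E, F ⊆ C ∧ F.Finite ∧
      C ⊆ ⋃ x ∈ F, Metric.ball x (1 / ((n : ℝ) + 1)) := fun n =>
    hCc.finite_cover_balls (by positivity)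
  choose F hFC hFf hFn using hnet
  refine ⟨Lay F, inferInstance, (lay_countable hFf).to_subtype, ?_, ?_, ?_⟩
  · rw [discreteTopology_iff_isOpen_singleton]
    intro q
    obtain ⟨r, hr, h⟩ := lay_isolated hFf q
    rw [Metric.isOpen_iff]
    intro q' hq'
    rw [mem_singleton_iff] at hq'
    subst hq'
    exact ⟨r, hr, fun y hy => h y hy⟩
  · have h1 : TotallyBounded (C ×ˢ Icc (0 : ℝ) 1) := (hCc.prod isCompact_Icc).totallyBounded
    have h2 : TotallyBounded (Lay F) := by
      refine h1.subset ?_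
      rintro q ⟨n, hn1, hn2⟩
      refine mem_prod.2 ⟨hFC n hn1, ?_⟩
      rw [hn2]
      refine ⟨by positivity, ?_⟩
      rw [div_le_one (by positivity)]
      have : (0 : ℝ) ≤ n := Nat.cast_nonneg n
      linarith
    have h3 := totallyBounded_preimage (isUniformEmbedding_subtype_val
      (p := fun q : E × ℝ => q ∈ Lay F)).isUniformInducing h2
    refine h3.subset fun q _ => ?_
    exact q.2
  · intro o p h0 h1
    have hp : Fact (0 < p ∧ p ≤ 1) := ⟨h0, h1⟩
    refine ⟨⟨FF p (Lay F), inferInstance, inferInstance, fun x => cl x o, isLipschitzFree o⟩, ?_⟩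
    intro Z _ _ δ h
    -- nearest points
    have hx : ∀ (n : ℕ) (s : C), ∃ x ∈ F n, dist (s : E) x < 1 / ((n : ℝ) + 1) := by
      intro n s
      obtain ⟨x, hx⟩ := mem_iUnion.1 (hFn n s.2)
      obtain ⟨hx1, hx2⟩ := mem_iUnion.1 hx
      exact ⟨x, hx1, hx2⟩
    choose x hxF hxd using hx
    set m : ℕ → C → Lay F := fun n s => ⟨(x n s, 1 / ((n : ℝ) + 1)), n, hxF n s, rfl⟩ with hm
    have hdδ : ∀ a b : Lay F, ‖δ a - δ b‖ = dist a b ^ p := fun a b => by
      rw [← h.isometric a b, pnorm_rpow]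
    have hto : Tendsto (fun n : ℕ => 1 / ((n : ℝ) + 1)) atTop (𝓝 0) :=
      tendsto_one_div_add_atTop_nhds_zero_nat
    have hxt : ∀ s : C, Tendsto (fun n => x n s) atTop (𝓝 (s : E)) := by
      intro s
      rw [tendsto_iff_dist_tendsto_zero]
      refine squeeze_zero (fun _ => dist_nonneg) (fun n => ?_) hto
      rw [dist_comm]
      exact (hxd n s).le
    -- Cauchy
    have hcs : CompleteSpace Z := h.banach.2
    have hcau : ∀ s : C, CauchySeq (fun n => δ (m n s)) := by
      intro s
      refine cauchySeq_of_le_tendsto_0 (fun N : ℕ => (2 * (1 / ((N : ℝ) + 1))) ^ p) ?_ ?_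
      · intro n k N hn hk
        rw [dist_eq_norm, hdδ]
        refine Real.rpow_le_rpow dist_nonneg ?_ h0.le
        rw [Subtype.dist_eq]
        have hmono : ∀ j : ℕ, N ≤ j → 1 / ((j : ℝ) + 1) ≤ 1 / ((N : ℝ) + 1) := fun j hj => by
          refine one_div_le_one_div_of_le (by positivity) ?_
          have : (N : ℝ) ≤ j := by exact_mod_cast hj
          linarith
        have hNp : (0 : ℝ) < 1 / ((N : ℝ) + 1) := by positivity
        refine max_le ?_ ?_
        · show dist (x n s) (x k s) ≤ _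
          calc dist (x n s) (x k s) ≤ dist (x n s) s + dist (s : E) (x k s) := dist_triangle _ _ _
            _ ≤ 1 / ((N : ℝ) + 1) + 1 / ((N : ℝ) + 1) := by
              rw [dist_comm (x n s)]
              exact add_le_add ((hxd n s).le.trans (hmono n hn)) ((hxd k s).le.trans (hmono k hk))
            _ = _ := by ring
        · show dist (1 / ((n : ℝ) + 1)) (1 / ((k : ℝ) + 1)) ≤ _
          rw [Real.dist_eq, abs_le]
          have h1 : (0 : ℝ) < 1 / ((n : ℝ) + 1) := by positivity
          have h2 : (0 : ℝ) < 1 / ((k : ℝ) + 1) := by positivity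
          have h3 := hmono n hn
          have h4 := hmono k hk
          constructor <;> linarith
      · have h1 : Tendsto (fun N : ℕ => 2 * (1 / ((N : ℝ) + 1))) atTop (𝓝 (2 * 0)) :=
          hto.const_mul 2
        rw [mul_zero] at h1
        have h2 := h1.rpow_const (p := p) (Or.inr h0.le)
        rwa [Real.zero_rpow h0.ne'] at h2
    choose D hD using fun s => cauchySeq_tendsto_of_complete (hcau s)
    -- the linear map
    obtain ⟨β, hβ, -⟩ := h.lift (Snow p E) (isPBanach_snow p E)
      (fun q => toSnow ((q : E × ℝ).1 - (o : E × ℝ).1)) (by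
        show ((o : E × ℝ).1 - (o : E × ℝ).1 : E) = 0
        rw [sub_self])
      ⟨1, fun a b => by
        rw [pnorm_snow, one_mul]
        show ‖((a : E × ℝ).1 - (o : E × ℝ).1) - ((b : E × ℝ).1 - (o : E × ℝ).1)‖ ≤ _
        rw [sub_sub_sub_cancel_right, ← dist_eq_norm, Subtype.dist_eq]
        exact (le_max_left _ _ : _ ≤ max (dist (a : E × ℝ).1 (b : E × ℝ).1)
          (dist (a : E × ℝ).2 (b : E × ℝ).2))⟩
    have hβD : ∀ s : C, ((snowCLM p E).comp β) (D s) = (s : E) - (o : E × ℝ).1 := by
      intro s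
      have h1 : Tendsto (fun n => ((snowCLM p E).comp β) (δ (m n s))) atTop
          (𝓝 (((snowCLM p E).comp β) (D s))) :=
        (((snowCLM p E).comp β).continuous.tendsto _).comp (hD s)
      have h2 : Tendsto (fun n => ((snowCLM p E).comp β) (δ (m n s))) atTop
          (𝓝 ((s : E) - (o : E × ℝ).1)) := by
        have h3 : (fun n => ((snowCLM p E).comp β) (δ (m n s))) =
            fun n => x n s - (o : E × ℝ).1 := by
          funext n
          show ofSnow (β (δ (m n s))) = _
          rw [hβ]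
          rfl
        rw [h3]
        exact (hxt s).sub_const _
      exact tendsto_nhds_unique h1 h2
    refine hC p h0 Z h.banach.1 D 1 zero_le_one (fun s s' => ?_) ((snowCLM p E).comp β)
      (fun s s' => ?_)
    · have h1 : Tendsto (fun n => ‖δ (m n s) - δ (m n s')‖) atTop (𝓝 ‖D s - D s'‖) :=
        ((hD s).sub (hD s')).norm
      have h2 : Tendsto (fun n => dist (x n s) (x n s') ^ p) atTop
          (𝓝 (dist (s : E) (s' : E) ^ p)) :=
        ((hxt s).dist (hxt s')).rpow_const (Or.inr h0.le)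
      rw [one_mul]
      refine le_of_tendsto_of_tendsto' h1 h2 (fun n => ?_)
      rw [hdδ, Subtype.dist_eq]
      refine Real.rpow_le_rpow dist_nonneg ?_ h0.le
      refine max_le le_rfl ?_
      show dist (1 / ((n : ℝ) + 1)) (1 / ((n : ℝ) + 1)) ≤ _
      rw [dist_self]
      exact dist_nonneg
    · rw [hβD, hβD, sub_sub_sub_cancel_right]

end Pool.Agent.Results.MP_7b119f_an.DiscreteFails
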